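import Pool.Agent.Helper39.AHS.Main

/-!
# Semistability of the first homology at infinity of ascending HNN extensions

Let the finitely presented group `Gp rel`, given by any finite presentation, be an ascending HNN
extension of a finitely generated subgroup `A` whose integral group ring embeds in a left Noetherian
ring, for example in a division ring. Then the inverse system of the first homology groups of the
complements of the finite subcomplexes of the universal cover of the presentation complex is
semistable. The group `A` need not be finitely presented.
-/

set_option autoImplicit false

namespace Pool.Agent.Results.MP_db811f_gt.AscendingHNN

open Pool.Agent.Helper39.AHS

theorem result {X R : Type} [Finite X] [Finite R] (rel : R → List (X × Bool))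
    (A : Subgroup (Gp rel)) (t : Gp rel) (h : IsAscendingHNN A t) (hN : NoetherianEmbeddable A) :
    H1Semistable (gn rel) rel :=
  asc rel A t h hN

end Pool.Agent.Results.MP_db811f_gt.AscendingHNN
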