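import Pool.Agent.Helper74.LI.Crisp

/-!
# Semistability of the first homology at infinity of locally indicable groups

Let the finitely presented group `Gp rel`, given by any finite presentation, have a subgroup `L` of
finite index which is locally indicable. If `L` is generated by two elements and is neither cyclic nor
free, or has a generating set with at least two elements which is connected by pairs that generate
neither a cyclic group nor a free group of rank two, or if `L` is not cyclic and contains no free
subgroup of rank two, then the inverse system of the first homology groups of the complements of the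
finite subcomplexes of the universal cover of the presentation complex is semistable.
-/

namespace Pool.Agent.Results.MP_db811f_gt.LocallyIndicableGroups

noncomputable section

/-- The group presented by the generators `X` and the relators `rel`. -/
abbrev Gp {X R : Type} (rel : R → List (X × Bool)) : Type :=
  PresentedGroup (Set.range fun ρ => FreeGroup.mk (rel ρ))

/-- The generators of the presented group. -/
def gn {X R : Type} (rel : R → List (X × Bool)) : X → Gp rel := PresentedGroup.of

variable {X R Γ : Type} [Group Γ]

/-- The end of the edge path of one letter which starts at `g`. -/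
def next (σ : X → Γ) (g : Γ) (p : X × Bool) : Γ := if p.2 then g * σ p.1 else g * (σ p.1)⁻¹

/-- The cellular 1-chain of the edge path of one letter which starts at `g`. -/
def edge (σ : X → Γ) (g : Γ) (p : X × Bool) : Γ × X →₀ ℤ :=
  if p.2 then Finsupp.single (g, p.1) 1 else -Finsupp.single (g * (σ p.1)⁻¹, p.1) 1

/-- The vertices of the edge path which starts at `g` and reads the word `l`. -/
def vertices (σ : X → Γ) (g : Γ) (l : List (X × Bool)) : List Γ := l.scanl (next σ) g

/-- The cellular 1-chain of the edge path which starts at `g` and reads the word `l`. -/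
def chain (σ : X → Γ) (g : Γ) (l : List (X × Bool)) : Γ × X →₀ ℤ :=
  ((vertices σ g l).zipWith (edge σ) l).sum

/-- The boundary of a 1-chain: the edge `(g, x)` goes to `g (σ x) - g`. -/
def bd (σ : X → Γ) (z : Γ × X →₀ ℤ) : Γ →₀ ℤ :=
  z.sum fun e n => Finsupp.single (e.1 * σ e.2) n - Finsupp.single e.1 n

/-- `z` is a 1-cycle of the subcomplex of all cells having no vertex in `C`. -/
def Z1 (σ : X → Γ) (C : Finset Γ) (z : Γ × X →₀ ℤ) : Prop :=
  bd σ z = 0 ∧ ∀ e ∈ z.support, e.1 ∉ C ∧ e.1 * σ e.2 ∉ C

/-- The 1-boundaries of the subcomplex of all cells having no vertex in `C`: the group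
generated by the boundary loops of the two-cells having no vertex in `C`. -/
def B1 (σ : X → Γ) (rel : R → List (X × Bool)) (C : Finset Γ) : AddSubgroup (Γ × X →₀ ℤ) :=
  AddSubgroup.closure {z | ∃ (g : Γ) (ρ : R), (∀ v ∈ vertices σ g (rel ρ), v ∉ C) ∧
    z = chain σ g (rel ρ)}

/-- Semistability (the Mittag-Leffler condition) of the inverse system of the groups
`H_1(U_C)`, where `U_C` is the subcomplex of the universal cover of the presentation complex
formed by the cells having no vertex in the finite set `C`: for every `C` there is `D` such
that for every larger `E` the groups `H_1(U_D)` and `H_1(U_E)` have the same image in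
`H_1(U_C)`. -/
def H1Semistable (σ : X → Γ) (rel : R → List (X × Bool)) : Prop :=
  ∀ C : Finset Γ, ∃ D : Finset Γ, C ⊆ D ∧ ∀ E : Finset Γ, D ⊆ E →
    ∀ z, Z1 σ D z → ∃ z', Z1 σ E z' ∧ z - z' ∈ B1 σ rel C

/-- `L` is locally indicable: every nontrivial finitely generated subgroup of `L` has a nontrivial
homomorphism to the integers. -/
def LocInd (L : Subgroup Γ) : Prop :=
  ∀ H : Subgroup Γ, H ≤ L → H.FG → H ≠ ⊥ → ∃ f : H →* Multiplicative ℤ, f ≠ 1

/-- The subgroup generated by `a` and `b` is neither cyclic nor free of rank two. -/
def Linked (a b : Γ) : Prop :=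
  ¬ IsCyclic (Subgroup.closure {a, b} : Subgroup Γ) ∧
    ¬ Nonempty ((Subgroup.closure {a, b} : Subgroup Γ) ≃* FreeGroup Bool)

/-- The set `S` has at least two elements and any two of them are joined by a sequence of elements
of `S` in which all neighbours are linked. -/
def Connected (S : Set Γ) : Prop :=
  S.Nontrivial ∧ ∀ a ∈ S, ∀ b ∈ S,
    Relation.ReflTransGen (fun x y => x ∈ S ∧ y ∈ S ∧ Linked x y) a b

/-- `L` is generated by a connected set. -/
def ConnectedlyGenerated (L : Subgroup Γ) : Prop :=
  ∃ S : Set Γ, Connected S ∧ Subgroup.closure S = L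

/-- `L` is not cyclic and has no free subgroup of rank two. -/
def NoFreeSubgroup (L : Subgroup Γ) : Prop :=
  ¬ IsCyclic L ∧ ¬ ∃ f : FreeGroup Bool →* L, Function.Injective f

end

theorem vs_eq {X Γ : Type} [Group Γ] (σ : X → Γ) (l : List (X × Bool)) :
    ∀ g, Helper39.AH.vs σ l g = vertices σ g l := by
  induction l with
  | nil => intro g; simp [Helper39.AH.vs, vertices]
  | cons p l ih =>
    intro g
    obtain ⟨x, b⟩ := p
    cases b
    · simp only [Helper39.AH.vs, ih, vertices, List.scanl_cons, next, Bool.false_eq_true, if_false]
    · simp only [Helper39.AH.vs, ih, vertices, List.scanl_cons, next, if_true]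

theorem chain_cons {X Γ : Type} [Group Γ] (σ : X → Γ) (g : Γ) (p : X × Bool)
    (l : List (X × Bool)) : chain σ g (p :: l) = edge σ g p + chain σ (next σ g p) l := by
  simp only [chain, vertices, List.scanl_cons, List.zipWith_cons_cons, List.sum_cons]

theorem ch_eq {X Γ : Type} [Group Γ] (σ : X → Γ) (l : List (X × Bool)) :
    ∀ g, Helper39.AH.ch σ l g = chain σ g l := by
  induction l with
  | nil => intro g; simp [Helper39.AH.ch, chain]
  | cons p l ih =>
    intro g
    obtain ⟨x, b⟩ := p
    cases b
    · simp only [Helper39.AH.ch, ih, chain_cons, edge, next, Bool.false_eq_true, if_false]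
      rw [sub_eq_neg_add]
    · simp only [Helper39.AH.ch, ih, chain_cons, edge, next, if_true]

theorem B1_eq {X R Γ : Type} [Group Γ] (σ : X → Γ) (rel : R → List (X × Bool)) (C : Finset Γ) :
    Helper39.AH.B1 σ rel C = B1 σ rel C := by
  unfold Helper39.AH.B1 B1
  simp only [ch_eq, vs_eq]

/-- `Q1` for the groups with a locally indicable subgroup of finite index which has a connected
generating set (for instance two generators, if it is neither cyclic nor free), or which is not
cyclic and contains no free subgroup of rank two. -/
theorem result {X R : Type} [Finite X] [Finite R] (rel : R → List (X × Bool))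
    (L : Subgroup (Gp rel)) (hfin : L.FiniteIndex) (hL : LocInd L)
    (h : ConnectedlyGenerated L ∨ NoFreeSubgroup L) : H1Semistable (gn rel) rel := by
  have key : Helper39.AH.H1Semistable rel := by
    rcases h with ⟨S, ⟨h1, h2⟩, h3⟩ | ⟨h1, h2⟩
    · exact Helper74.LI.main_connected rel L hfin hL S h3 h1 h2
    · exact Helper74.LI.main_no_free rel L hfin hL h2 h1
  intro C
  obtain ⟨D, hCD, hD⟩ := key C
  refine ⟨D, hCD, fun E hE z hz => ?_⟩
  obtain ⟨z', hz', hB⟩ := hD E hE z hz
  rw [B1_eq] at hB
  exact ⟨z', hz', hB⟩

end Pool.Agent.Results.MP_db811f_gt.LocallyIndicableGroups
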