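import Pool.Agent.Helper52.HSS.Main

/-!
# A class of groups with semistable first homology at infinity

`Good` is the smallest class of subgroups of a group which contains the subgroups isomorphic to a finitely
presented one-ended group with semistable first homology at infinity and the finitely generated subgroups
which have a commensurated infinite finitely generated subgroup of infinite index, and is closed under
adding an element `s` to `N` if `N ∩ s N s⁻¹` contains an infinite finitely generated subgroup, under
joining `N` and `N'` if `N ∩ N'` contains one, and under directed unions. The members need not be finitely
presented or finitely generated. If the finitely presented group `Gp rel` is in this class, then the
inverse system of the first homology groups of the complements of the finite subcomplexes of the universal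
cover of the presentation complex is semistable.
-/

namespace Pool.Agent.Results.MP_db811f_gt.MihalikClass

open Pool.Agent.Helper52.HSS

/-- If the finitely presented group `Gp rel` is in the class `Good`, then its first homology at infinity
is semistable. -/
theorem result {X R : Type} [Finite X] [Finite R] (rel : R → List (X × Bool))
    (h : Good (⊤ : Subgroup (Gp rel))) : H1Semistable (gn rel) rel :=
  main rel h

end Pool.Agent.Results.MP_db811f_gt.MihalikClass
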