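import Pool.Agent.Helper39.AHS.Main

/-!
# Semistability of the first homology at infinity of groups without free subgroups of rank two

Let the finitely presented group `Gp rel`, given by any finite presentation, have no free subgroup of
rank two, and let `χ` be a homomorphism onto the integers such that the integral group ring of each
finitely generated subgroup of the kernel of `χ` embeds in a left Noetherian ring. Then the inverse
system of the first homology groups of the complements of the finite subcomplexes of the universal
cover of the presentation complex is semistable.
-/

set_option autoImplicit false

namespace Pool.Agent.Results.MP_db811f_gt.NoFreeSubgroup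

open Pool.Agent.Helper39.AHS

theorem result {X R : Type} [Finite X] [Finite R] (rel : R → List (X × Bool))
    (hF : ¬ HasFreeSubgroup (Gp rel)) (χ : Gp rel →* Multiplicative ℤ)
    (hχ : Function.Surjective χ) (hN : KernelEmbeddable χ) : H1Semistable (gn rel) rel :=
  noFree rel hF χ hχ hN

end Pool.Agent.Results.MP_db811f_gt.NoFreeSubgroup
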